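import Pool.Agent.Work.MP_cf3138_an.Normal

/-!
MP_cf3138_an, Q1 (affirmative): every rational map of degree at least 2 with a Herman ring has a
buried Julia component.

Idea.  Let `g = f^p` fix the ring `H` and let `c` be an invariant circle in `H`.  The complement
of `c` has two components `A`, `B`.  The open set `g(A)` has its boundary in `c`; if it missed
`B`, the iterates of `g` on `A` would omit `B`, so `A` would lie in the Fatou set, hence in `H`,
which is impossible by compactness.  So `g` maps each of the two pieces of the Julia set onto the
whole Julia set, and all itineraries in `{A, B}` are realised.  The boundary of a Fatou component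
realises at most two itineraries, and there are countably many Fatou components; a Julia component
with any other itinerary is buried.
-/

namespace Pool.Agent.Results.MP_cf3138_an.Buried

open Pool.Agent.Work.MP_cf3138_an

theorem result (f : Sph → Sph) (hf : IsRationalOfDegreeGeTwo f) (hring : ∃ H, IsHermanRing f H) :
    ∃ K, IsJuliaComponent f K ∧ IsBuried f K := by
  obtain ⟨P, Q, hcop, hdeg, rfl⟩ := hf
  have hnc := nonConst_of_coprime hcop (by omega : 1 ≤ max P.natDegree Q.natDegree)
  have hcont := hnc.good.continuous
  obtain ⟨H, hH, p, hp, hpH, -, r, θ, φ, hr, -, hsrc, htgt, -, hconj⟩ := hring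
  have hF := fatouSet_eq hcont
  have hR : Ring ((ratMap P Q)^[p]) φ r := by
    refine ⟨hr, htgt, ?_, ?_⟩
    · intro x hx
      rw [hsrc] at hx ⊢
      rw [← hpH]
      exact Set.mem_image_of_mem _ hx
    · intro x hx
      rw [hsrc] at hx
      rw [hconj x hx, norm_mul]
      have : (2 * Real.pi * θ * Complex.I : ℂ) = ((2 * Real.pi * θ : ℝ) : ℂ) * Complex.I := by
        push_cast; ring
      rw [this, Complex.norm_exp_ofReal_mul_I, one_mul]
  have hcomp : IsComp (eqFatou (ratMap P Q)) φ.source := by
    rw [hsrc, ← hF]; exact hH
  obtain ⟨K, hK, hK2⟩ := buried hcont hnc.isOpenMap hnc.good.hol hp hR hcomp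
  refine ⟨K, ?_, ?_⟩
  · unfold IsJuliaComponent juliaSet
    rw [hF]; exact hK
  · intro U hU
    apply Set.disjoint_iff_inter_eq_empty.1
    apply hK2
    unfold IsFatouComponent at hU
    rw [hF] at hU; exact hU

end Pool.Agent.Results.MP_cf3138_an.Buried
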